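import Pool.Agent.W269.BL.Stm

/-!
BL-ENUM: consecutive polynomials in the lexicographic enumeration.
-/

set_option autoImplicit false

open Polynomial

namespace Pool.Agent.W721.BL.ENUM

open Pool.Agent.W269.BL

universe u

section
variable {K : Type u} [Field K] [Fintype K] (e : Fin (Fintype.card K) ≃ K)

lemma coeff_phi (he : e ⟨0, Fintype.card_pos⟩ = 0) (k i : ℕ) :
    (phi e k).coeff i = e ⟨k / Fintype.card K ^ i % Fintype.card K,
      Nat.mod_lt _ Fintype.card_pos⟩ := by
  unfold phi
  rw [finsetSum_coeff]
  simp only [coeff_C_mul, coeff_X_pow]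
  by_cases hi : i < k
  · rw [Finset.sum_eq_single i]
    · simp
    · intro b _ hb
      rw [if_neg (Ne.symm hb), mul_zero]
    · intro h; exact absurd (Finset.mem_range.2 hi) h
  · rw [Finset.sum_eq_zero]
    · have h0 : k / Fintype.card K ^ i = 0 :=
        Nat.div_eq_of_lt (lt_of_lt_of_le (Nat.lt_pow_self (Fintype.one_lt_card))
          (Nat.pow_le_pow_right Fintype.card_pos (not_lt.1 hi)))
      simp only [h0, Nat.zero_mod]
      exact he.symm
    · intro b hb
      have := Finset.mem_range.1 hb
      rw [if_neg (by omega), mul_zero]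

lemma phi_add (he : e ⟨0, Fintype.card_pos⟩ = 0) (s t j : ℕ) (hj : j < Fintype.card K ^ s) :
    phi e (Fintype.card K ^ s * t + j) = X ^ s * phi e t + phi e j := by
  have hq : 0 < Fintype.card K := Fintype.card_pos
  ext i
  rw [coeff_add, coeff_phi e he, coeff_phi e he, coeff_X_pow_mul', coeff_phi e he]
  split_ifs with h
  · have h1 : (Fintype.card K ^ s * t + j) / Fintype.card K ^ i
        = t / Fintype.card K ^ (i - s) := by
      have h2 : Fintype.card K ^ i = Fintype.card K ^ s * Fintype.card K ^ (i - s) := by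
        rw [← pow_add]; congr 1; omega
      rw [h2, ← Nat.div_div_eq_div_mul, Nat.mul_add_div (pow_pos hq s), Nat.div_eq_of_lt hj,
        add_zero]
    have h3 : j / Fintype.card K ^ i = 0 :=
      Nat.div_eq_of_lt (lt_of_lt_of_le hj (Nat.pow_le_pow_right hq h))
    simp only [h1, h3, Nat.zero_mod, he, add_zero]
  · have h1 : (Fintype.card K ^ s * t + j) / Fintype.card K ^ i % Fintype.card K
        = j / Fintype.card K ^ i % Fintype.card K := by
      have h2 : Fintype.card K ^ s = Fintype.card K ^ i * (Fintype.card K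
          * Fintype.card K ^ (s - i - 1)) := by
        rw [← pow_succ', ← pow_add]; congr 1; omega
      rw [h2, mul_assoc, Nat.mul_add_div (pow_pos hq i), mul_assoc, Nat.mul_add_mod]
    simp only [h1, zero_add]

lemma digits_inj {q : ℕ} (hq : 1 < q) : ∀ N k l : ℕ, k + l ≤ N →
    (∀ i, k / q ^ i % q = l / q ^ i % q) → k = l := by
  intro N
  induction N with
  | zero => intro k l h _; omega
  | succ N ih =>
    intro k l h hd
    by_cases h0 : k + l = 0
    · omega
    · have h1 : k / q = l / q := by
        apply ih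
        · have a1 : k / q ≤ k := Nat.div_le_self _ _
          have a2 : l / q ≤ l := Nat.div_le_self _ _
          rcases Nat.eq_zero_or_pos k with hk | hk
          · have hl : 0 < l := by omega
            have := Nat.div_lt_self hl hq
            omega
          · have := Nat.div_lt_self hk hq
            omega
        · intro i
          have := hd (i + 1)
          rw [pow_succ', ← Nat.div_div_eq_div_mul, ← Nat.div_div_eq_div_mul] at this
          exact this
      have h2 := hd 0
      simp only [pow_zero, Nat.div_one] at h2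
      rw [← Nat.div_add_mod k q, ← Nat.div_add_mod l q, h1, h2]

lemma phi_inj (he : e ⟨0, Fintype.card_pos⟩ = 0) {k l : ℕ} (h : phi e k = phi e l) : k = l := by
  apply digits_inj (Fintype.one_lt_card (α := K)) (k + l) k l le_rfl
  intro i
  have h1 := congrArg (fun f => Polynomial.coeff f i) h
  simp only [coeff_phi e he] at h1
  have h2 := e.injective h1
  exact congrArg Fin.val h2

lemma phi_small (he : e ⟨0, Fintype.card_pos⟩ = 0) (j : Fin (Fintype.card K)) :
    phi e j = C (e j) := by
  ext i
  rw [coeff_phi e he, coeff_C]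
  split_ifs with h
  · subst h
    congr 1
    ext
    simp only [pow_zero, Nat.div_one]
    exact Nat.mod_eq_of_lt j.2
  · have h0 : (j : ℕ) / Fintype.card K ^ i = 0 := by
      apply Nat.div_eq_of_lt
      calc (j : ℕ) < Fintype.card K ^ 1 := by rw [pow_one]; exact j.2
        _ ≤ _ := Nat.pow_le_pow_right Fintype.card_pos (by omega)
    simp only [h0, Nat.zero_mod, he]

lemma phi_surj (he : e ⟨0, Fintype.card_pos⟩ = 0) : ∀ (N : ℕ) (F : K[X]), F.natDegree ≤ N →
    ∃ t, phi e t = F := by
  intro N
  induction N with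
  | zero =>
    intro F hF
    refine ⟨(e.symm (F.coeff 0) : Fin _), ?_⟩
    rw [phi_small e he, Equiv.apply_symm_apply]
    exact (eq_C_of_natDegree_le_zero hF).symm
  | succ N ih =>
    intro F hF
    obtain ⟨t, ht⟩ := ih F.divX (by rw [natDegree_divX_eq_natDegree_tsub_one]; omega)
    refine ⟨Fintype.card K ^ 1 * t + (e.symm (F.coeff 0) : Fin _), ?_⟩
    rw [phi_add e he 1 t _ (by rw [pow_one]; exact (e.symm (F.coeff 0)).2), ht, phi_small e he,
      Equiv.apply_symm_apply, pow_one, mul_comm]
    exact divX_mul_X_add F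

lemma lt_of_monic {t N : ℕ} {F : K[X]} (hF : F.Monic) (hN : F.natDegree = N)
    (ht : phi e t = F) : N < t := by
  by_contra hcon
  have h1 : F.coeff N = 1 := by rw [← hN]; exact hF
  rw [← ht] at h1
  unfold phi at h1
  rw [finsetSum_coeff] at h1
  simp only [coeff_C_mul, coeff_X_pow] at h1
  rw [Finset.sum_eq_zero] at h1
  · exact zero_ne_one h1
  · intro b hb
    have := Finset.mem_range.1 hb
    rw [if_neg (by omega), mul_zero]

end

theorem main : StmMAIN.{u} → StmENUM.{u} := by
  intro hM K _ _ p _ _ hp e he n ε hε M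
  have hq : 1 < Fintype.card K := Fintype.one_lt_card
  have hn : n < Fintype.card K ^ n := Nat.lt_pow_self hq
  obtain ⟨r, hr⟩ := hM K p hp n (fun _ => X ^ n) (fun j => phi e (1 + j))
    (fun _ => pow_ne_zero _ X_ne_zero) (by
      intro i j hij h
      have h1 := mul_left_cancel₀ (pow_ne_zero n (X_ne_zero (R := K))) h
      have h2 := phi_inj e he h1
      apply hij
      ext
      omega) ε hε
  have h1 := hr (max M (p * r)) 0 (by rw [zero_add]; exact le_max_right _ _)
  rw [pow_zero] at h1
  obtain ⟨F, hF1, hF2, hF3⟩ := Set.nonempty_of_ncard_ne_zero (by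
    intro h0; rw [h0] at h1; omega)
  obtain ⟨t, ht⟩ := phi_surj e he _ F le_rfl
  have hlt := lt_of_monic e hF1 hF2 ht
  have hMt : M ≤ t := (le_max_left M (p * r)).trans hlt.le
  refine ⟨Fintype.card K ^ n * t, ?_, ?_⟩
  · calc M ≤ 1 * t := by omega
      _ ≤ _ := Nat.mul_le_mul_right _ (Nat.one_le_pow _ _ (by omega))
  · intro j
    rw [add_assoc, phi_add e he n t (1 + j) (by have := j.2; omega), ht]
    exact (hF3 j).2

end Pool.Agent.W721.BL.ENUM
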