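import Pool.Agent.W269.BL.Stm

/-!
BL-EY: choice of `y` and of private primes.
-/

set_option autoImplicit false

open Polynomial

namespace Pool.Agent.W721.BL.EY

open Pool.Agent.W269.BL

universe u

section
variable {K : Type u} [Field K]

lemma exists_prime (W : K[X]) (hW : W ≠ 0) : ∃ P : K[X], P.Monic ∧ Irreducible P ∧ ¬ P ∣ W := by
  have hdeg : (W * X + 1).natDegree = W.natDegree + 1 := by
    rw [natDegree_add_eq_left_of_natDegree_lt]
    · exact natDegree_mul_X hW
    · rw [natDegree_mul_X hW]; simp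
  have hnu : ¬ IsUnit (W * X + 1) := by
    intro h
    have := natDegree_eq_zero_of_isUnit h
    omega
  obtain ⟨P, h1, h2, h3⟩ := exists_monic_irreducible_factor _ hnu
  refine ⟨P, h1, h2, fun h => h2.not_isUnit ?_⟩
  have h4 : P ∣ 1 := (dvd_add_right (dvd_mul_of_dvd_left h X)).1 h3
  exact isUnit_of_dvd_one h4

lemma exists_primes (n : ℕ) : ∀ W : K[X], W ≠ 0 → ∃ P : Fin n → K[X],
    (∀ j, (P j).Monic ∧ Irreducible (P j) ∧ ¬ P j ∣ W) ∧
      ∀ i j, i ≠ j → IsCoprime (P i) (P j) := by
  induction n with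
  | zero => intro W _; exact ⟨fun i => i.elim0, fun i => i.elim0, fun i => i.elim0⟩
  | succ n ih =>
    intro W hW
    obtain ⟨P₀, h1, h2, h3⟩ := exists_prime W hW
    obtain ⟨P, hP, hP2⟩ := ih (W * P₀) (mul_ne_zero hW h2.ne_zero)
    have hc : ∀ j, IsCoprime (P j) P₀ := fun j =>
      ((hP j).2.1.coprime_iff_not_dvd).2 fun h => (hP j).2.2 (dvd_mul_of_dvd_right h W)
    refine ⟨Fin.cons P₀ P, ?_, ?_⟩
    · intro j
      refine Fin.cases ?_ (fun j => ?_) j
      · exact ⟨h1, h2, h3⟩
      · exact ⟨(hP j).1, (hP j).2.1, fun h => (hP j).2.2 (dvd_mul_of_dvd_left h P₀)⟩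
    · intro i j
      refine Fin.cases ?_ (fun i => ?_) i
      · refine Fin.cases ?_ (fun j => ?_) j
        · intro h; exact absurd rfl h
        · intro _; exact (hc j).symm
      · refine Fin.cases ?_ (fun j => ?_) j
        · intro _; exact hc i
        · intro h; exact hP2 i j (fun h' => h (by rw [h']))

end

theorem main : StmEY.{u} := by
  intro K _ _ n A b hA hb hAb c
  classical
  let W : K[X] := (∏ i, A i) *
    ∏ i, ∏ j, (if i = j then 1 else C (b j) * A i - C (b i) * A j)
  have hW : W ≠ 0 := by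
    apply mul_ne_zero
    · exact Finset.prod_ne_zero_iff.2 fun i _ => (hA i).ne_zero
    · refine Finset.prod_ne_zero_iff.2 fun i _ => Finset.prod_ne_zero_iff.2 fun j _ => ?_
      split_ifs with h
      · exact one_ne_zero
      · exact sub_ne_zero.2 (hAb i j h)
  obtain ⟨P, hP, hPc⟩ := exists_primes n W hW
  have hPA : ∀ j i, ¬ P j ∣ A i := fun j i h => (hP j).2.2
    (dvd_mul_of_dvd_left (h.trans (Finset.dvd_prod_of_mem A (Finset.mem_univ i))) _)
  have hPAb : ∀ k i j, i ≠ j → ¬ P k ∣ C (b j) * A i - C (b i) * A j := by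
    intro k i j hij h
    apply (hP k).2.2
    apply dvd_mul_of_dvd_right
    refine h.trans ?_
    have h1 : (C (b j) * A i - C (b i) * A j) =
        (if i = j then 1 else C (b j) * A i - C (b i) * A j) := by rw [if_neg hij]
    rw [h1]
    exact (Finset.dvd_prod_of_mem (fun j => if i = j then 1 else C (b j) * A i - C (b i) * A j)
      (Finset.mem_univ j)).trans (Finset.dvd_prod_of_mem
        (fun i => ∏ j, (if i = j then 1 else C (b j) * A i - C (b i) * A j)) (Finset.mem_univ i))
  have hcop : ∀ j, ∃ u v : K[X], u * A j + v * P j ^ 2 = 1 := by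
    intro j
    have h1 : IsCoprime (P j) (A j) := ((hP j).2.1.coprime_iff_not_dvd).2 (hPA j j)
    exact (h1.symm.pow_right (n := 2))
  choose u v huv using hcop
  obtain ⟨y₀, hy₀⟩ := Ideal.exists_forall_sub_mem_ideal
    (I := fun j => Ideal.span {P j ^ 2})
    (fun i j hij => (Ideal.isCoprime_span_singleton_iff _ _).2 ((hPc i j hij).pow))
    (fun j => (P j - C (b j)) * u j)
  have hy₁ : ∀ j, P j ^ 2 ∣ y₀ - (P j - C (b j)) * u j := fun j =>
    Ideal.mem_span_singleton.1 (hy₀ j)
  let S : K[X] := ∏ j, P j ^ 2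
  have hS : S.Monic := monic_prod_of_monic _ _ fun j _ => ((hP j).1).pow 2
  let k : ℕ := 2 * (y₀.natDegree + 1) + c + S.natDegree
  let y : K[X] := y₀ + S * X ^ k
  have hSX : (S * X ^ k).Monic := hS.mul (monic_X_pow k)
  have hSXdeg : (S * X ^ k).natDegree = 2 * (y₀.natDegree + 1) + c + 2 * S.natDegree := by
    rw [hS.natDegree_mul (monic_X_pow k), natDegree_X_pow]
    simp only [k]; ring
  have hydeg : y.natDegree = 2 * (y₀.natDegree + 1) + c + 2 * S.natDegree := by
    rw [← hSXdeg]
    exact natDegree_add_eq_right_of_natDegree_lt (by rw [hSXdeg]; omega)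
  have hy2 : ∀ j, P j ^ 2 ∣ y - (P j - C (b j)) * u j := by
    intro j
    have h1 : y - (P j - C (b j)) * u j = (y₀ - (P j - C (b j)) * u j) + S * X ^ k := by
      simp only [y]; ring
    rw [h1]
    exact dvd_add (hy₁ j) (dvd_mul_of_dvd_left
      (Finset.dvd_prod_of_mem (fun j => P j ^ 2) (Finset.mem_univ j)) _)
  have hy3 : ∀ j, P j ^ 2 ∣ (A j * y + C (b j)) - P j := by
    intro j
    have h1 : (A j * y + C (b j)) - P j = A j * (y - (P j - C (b j)) * u j)
        - v j * P j ^ 2 * (P j - C (b j)) := by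
      have h2 := huv j
      linear_combination (P j - C (b j)) * h2
    rw [h1]
    exact dvd_sub (dvd_mul_of_dvd_right (hy2 j) _)
      (dvd_mul_of_dvd_left (dvd_mul_left _ _) _)
  have hy4 : ∀ j, P j ∣ A j * y + C (b j) := by
    intro j
    have h1 : P j ∣ (A j * y + C (b j)) - P j := (dvd_pow_self _ two_ne_zero).trans (hy3 j)
    have h2 := dvd_add h1 (dvd_refl (P j))
    rwa [sub_add_cancel] at h2
  refine ⟨y, ?_, by rw [hydeg]; omega, by rw [hydeg]; omega, P, fun j => ⟨(hP j).1, (hP j).2.1,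
    hy4 j, ?_, ?_⟩⟩
  · refine hSX.add_of_right ?_
    apply degree_lt_degree
    rw [hSXdeg]; omega
  · intro h
    have h1 : P j ^ 2 ∣ P j := by
      have := dvd_sub h (hy3 j)
      rwa [sub_sub_cancel] at this
    obtain ⟨w, hw⟩ := h1
    have h2 : P j * 1 = P j * (P j * w) := by
      rw [mul_one, ← mul_assoc, ← pow_two]; exact hw
    have h3 := mul_left_cancel₀ (hP j).2.1.ne_zero h2
    exact (hP j).2.1.not_isUnit (IsUnit.of_mul_eq_one _ h3.symm)
  · intro i hij h
    apply hPAb j j i (Ne.symm hij)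
    have h1 : C (b i) * A j - C (b j) * A i =
        A j * (A i * y + C (b i)) - A i * (A j * y + C (b j)) := by ring
    rw [h1]
    exact dvd_sub (dvd_mul_of_dvd_right h _) (dvd_mul_of_dvd_right (hy4 j) _)

end Pool.Agent.W721.BL.EY
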